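import Pool.Agent.Lib_helper52.LQ.Defs
import Pool.Agent.Lib_helper49.LQ.N3
import Pool.Agent.Lib_helper67.YG.T0

set_option autoImplicit false

namespace Pool.Agent.LQ

open MeasureTheory ENNReal Set Filter Topology Pool.Agent.EPS Pool.Agent.YG

variable {d : ℕ}

/-- clipping an integrable function changes little -/
theorem lm_clip (μ : Measure (Eu d)) (g : Eu d → ℝ) (hg : Integrable g μ) (ε : ℝ) (hε : 0 < ε) :
    ∃ K : ℝ, 0 ≤ K ∧ ∫ x, |g x - max (-K) (min K (g x))| ∂μ < ε := by
  have h1 : Tendsto (fun n : ℕ => ∫ x, |g x - max (-(n : ℝ)) (min (n : ℝ) (g x))| ∂μ) atTop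
      (𝓝 (∫ _x : Eu d, (0 : ℝ) ∂μ)) := by
    refine tendsto_integral_of_dominated_convergence (fun x => |g x|) ?_ hg.abs ?_ ?_
    · intro n
      have h2 : AEStronglyMeasurable (fun x => max (-(n : ℝ)) (min (n : ℝ) (g x))) μ :=
        aestronglyMeasurable_const.sup (aestronglyMeasurable_const.inf hg.aestronglyMeasurable)
      exact (hg.aestronglyMeasurable.sub h2).norm
    · intro n
      refine Eventually.of_forall fun x => ?_
      rw [Real.norm_eq_abs, abs_abs]
      have hn : (0 : ℝ) ≤ n := Nat.cast_nonneg n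
      rcases le_total (g x) 0 with h | h
      · rw [min_eq_right (h.trans hn), abs_of_nonpos h]
        rcases le_total (-(n : ℝ)) (g x) with h' | h'
        · rw [max_eq_right h', sub_self, abs_zero]; linarith
        · rw [max_eq_left h', abs_of_nonpos (by linarith)]; linarith
      · have h3 : -(n : ℝ) ≤ min (n : ℝ) (g x) := le_min (by linarith) (by linarith)
        rw [max_eq_right h3, abs_of_nonneg h]
        rcases le_total (n : ℝ) (g x) with h' | h'
        · rw [min_eq_left h', abs_of_nonneg (by linarith)]; linarith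
        · rw [min_eq_right h', sub_self, abs_zero]; exact h
    · refine Eventually.of_forall fun x => ?_
      refine tendsto_const_nhds.congr' ?_
      obtain ⟨n0, hn0⟩ := exists_nat_ge |g x|
      filter_upwards [eventually_ge_atTop n0] with n hn
      have h4 : |g x| ≤ (n : ℝ) := hn0.trans (by exact_mod_cast hn)
      have h5 := abs_le.1 h4
      rw [min_eq_right h5.2, max_eq_right h5.1, sub_self, abs_zero]
  rw [integral_zero] at h1
  obtain ⟨n, hn⟩ := (h1.eventually (gt_mem_nhds hε)).exists
  exact ⟨n, Nat.cast_nonneg n, hn⟩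

/-- the estimate for one law -/
theorem lm_one (μ : Measure (Eu d)) [IsProbabilityMeasure μ] (h : FinE μ)
    (ν : Measure (Eu d)) [IsProbabilityMeasure ν] (c : NNReal) (hle : ν ≤ (c : ℝ≥0∞) • μ)
    (K ε : ℝ) (hK : 0 ≤ K)
    (hε : ∫ x, |lg μ x - max (-K) (min K (lg μ x))| ∂μ < ε) :
    1 ≤ (c : ℝ) ∧ |ent ν - ent μ| ≤ 2 * K * (c - 1) + (c + 1) * ε + Real.log c := by
  have hc1 : 1 ≤ (c : ℝ) := by
    have h1 := hle univ
    rw [Measure.smul_apply, measure_univ, measure_univ, smul_eq_mul, mul_one] at h1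
    exact_mod_cast h1
  refine ⟨hc1, ?_⟩
  have hac : ν ≪ μ := by
    refine Measure.AbsolutelyContinuous.mk fun s _ hs => ?_
    have h1 := hle s
    rw [Measure.smul_apply, hs, smul_zero] at h1
    exact le_antisymm h1 bot_le
  have hHL : ν.HaveLebesgueDecomposition μ :=
    Measure.haveLebesgueDecomposition_of_sigmaFinite ν μ
  -- the density
  have hgle : ∀ᵐ x ∂μ, ν.rnDeriv μ x ≤ (c : ℝ≥0∞) := by
    have h2 : ∀ᵐ x ∂μ, ν.rnDeriv μ x ≤ (fun _ : Eu d => (c : ℝ≥0∞)) x := by
      refine ae_le_of_forall_setLIntegral_le_of_sigmaFinite (Measure.measurable_rnDeriv ν μ)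
        fun s hs _ => ?_
      rw [Measure.setLIntegral_rnDeriv hac, setLIntegral_const]
      have := hle s
      rwa [Measure.smul_apply, smul_eq_mul] at this
    exact h2
  set f : Eu d → ℝ := fun x => min ((ν.rnDeriv μ x).toReal) c with hf
  have hfm : Measurable f :=
    (Measure.measurable_rnDeriv ν μ).ennreal_toReal.min measurable_const
  have hf0 : ∀ x, 0 ≤ f x := fun x => le_min ENNReal.toReal_nonneg c.coe_nonneg
  have hfc : ∀ x, f x ≤ c := fun x => min_le_right _ _
  have hfeq : ∀ᵐ x ∂μ, ENNReal.ofReal (f x) = ν.rnDeriv μ x := by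
    filter_upwards [hgle] with x hx
    have h3 : (ν.rnDeriv μ x).toReal ≤ c := by
      have := ENNReal.toReal_mono ENNReal.coe_ne_top hx
      simpa using this
    have h4 : f x = (ν.rnDeriv μ x).toReal := min_eq_left h3
    rw [h4, ENNReal.ofReal_toReal (hx.trans_lt ENNReal.coe_lt_top).ne]
  have htl : tl μ f = ν := by
    unfold tl
    rw [withDensity_congr_ae hfeq, Measure.withDensity_rnDeriv_eq ν μ hac]
  have hfi : Integrable f μ := by
    refine Integrable.of_bound hfm.aestronglyMeasurable c (Eventually.of_forall fun x => ?_)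
    rw [Real.norm_eq_abs, abs_of_nonneg (hf0 x)]
    exact hfc x
  have hf1 : ∫ x, f x ∂μ = 1 := by
    rw [integral_eq_lintegral_of_nonneg_ae (Eventually.of_forall hf0) hfm.aestronglyMeasurable]
    have h5 : ∫⁻ x, ENNReal.ofReal (f x) ∂μ = 1 := by
      rw [lintegral_congr_ae hfeq, Measure.lintegral_rnDeriv hac, measure_univ]
    rw [h5, ENNReal.toReal_one]
  obtain ⟨-, -, hil, hent⟩ := ent_tl h f hfm hf0 c hfc hf1
  rw [htl] at hent
  obtain ⟨hli, hle2, -⟩ := log_dens μ h
  -- the term f log f
  have hflog0 : ∀ x, f x - 1 ≤ f x * Real.log (f x) := by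
    intro x
    rcases (hf0 x).eq_or_lt with h6 | h6
    · rw [← h6]; norm_num
    · have h7 := Real.one_sub_inv_le_log_of_pos h6
      have h8 : f x * (1 - (f x)⁻¹) ≤ f x * Real.log (f x) := by gcongr
      have h9 : f x * (1 - (f x)⁻¹) = f x - 1 := by field_simp
      linarith
  have hflog1 : ∀ x, f x * Real.log (f x) ≤ f x * Real.log c := by
    intro x
    rcases (hf0 x).eq_or_lt with h6 | h6
    · rw [← h6]; norm_num
    · have h7 := Real.log_le_log h6 (hfc x)
      gcongr
  have hcl : 0 ≤ Real.log c := Real.log_nonneg hc1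
  have hfli : Integrable (fun x => f x * Real.log (f x)) μ := by
    refine Integrable.of_bound (hfm.mul (Real.measurable_log.comp hfm)).aestronglyMeasurable
      (1 + c * Real.log c) (Eventually.of_forall fun x => ?_)
    rw [Real.norm_eq_abs, abs_le]
    constructor
    · have := hflog0 x
      have := hf0 x
      have h10 : 0 ≤ (c : ℝ) * Real.log c := mul_nonneg c.coe_nonneg hcl
      linarith
    · have h10 := hflog1 x
      have h11 : f x * Real.log c ≤ c * Real.log c := by gcongr; exact hfc x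
      linarith
  have hA0 : 0 ≤ ∫ x, f x * Real.log (f x) ∂μ := by
    have h12 : ∫ x, (f x - 1) ∂μ ≤ ∫ x, f x * Real.log (f x) ∂μ :=
      integral_mono (hfi.sub (integrable_const 1)) hfli hflog0
    rw [integral_sub hfi (integrable_const 1), hf1, integral_const, probReal_univ] at h12
    simpa using h12
  have hA1 : ∫ x, f x * Real.log (f x) ∂μ ≤ Real.log c := by
    have h12 : ∫ x, f x * Real.log (f x) ∂μ ≤ ∫ x, f x * Real.log c ∂μ :=
      integral_mono hfli (hfi.mul_const _) hflog1
    rw [integral_mul_const, hf1, one_mul] at h12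
    exact h12
  -- the L1 distance
  have hL1 : ∫ x, |f x - 1| ∂μ ≤ 2 * (c - 1) := by
    have h13 : ∀ x, |f x - 1| ≤ (c - f x) + (c - 1) := by
      intro x
      rw [abs_le]
      have := hfc x
      constructor <;> linarith
    have h14 : ∫ x, |f x - 1| ∂μ ≤ ∫ x, ((c - f x) + (c - 1)) ∂μ := by
      refine integral_mono (hfi.sub (integrable_const 1)).abs
        (((integrable_const (c : ℝ)).sub hfi).add (integrable_const _)) h13
    rw [integral_add (f := fun x => (c : ℝ) - f x) (g := fun _ => (c : ℝ) - 1)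
        ((integrable_const (c : ℝ)).sub hfi) (integrable_const _),
      integral_sub (integrable_const (c : ℝ)) hfi, hf1, integral_const, integral_const,
      probReal_univ] at h14
    simp only [one_smul] at h14
    linarith
  -- the main term
  set g : Eu d → ℝ := fun x => max (-K) (min K (lg μ x)) with hg
  have hgm : AEStronglyMeasurable g μ :=
    aestronglyMeasurable_const.sup (aestronglyMeasurable_const.inf hli.aestronglyMeasurable)
  have hgK : ∀ x, |g x| ≤ K := by
    intro x
    rw [abs_le]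
    exact ⟨le_max_left _ _, max_le (by linarith) (min_le_left _ _)⟩
  have hgi : Integrable g μ :=
    Integrable.of_bound hgm K (Eventually.of_forall fun x => by
      rw [Real.norm_eq_abs]; exact hgK x)
  have hdi : Integrable (fun x => (f x - 1) * lg μ x) μ := by
    have : (fun x => (f x - 1) * lg μ x) = fun x => f x * lg μ x - lg μ x := by
      funext x; ring
    rw [this]
    exact hil.sub hli
  have hmain : |∫ x, (f x - 1) * lg μ x ∂μ| ≤ K * (2 * (c - 1)) + (c + 1) * ε := by
    have h15 : ∀ x, |(f x - 1) * lg μ x| ≤ K * |f x - 1| + (c + 1) * |lg μ x - g x| := by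
      intro x
      rw [abs_mul]
      have h16 : |lg μ x| ≤ |g x| + |lg μ x - g x| := by
        have := abs_add_le (g x) (lg μ x - g x)
        rwa [add_sub_cancel] at this
      have h17 : |f x - 1| ≤ c + 1 := by
        rw [abs_le]
        have := hfc x
        have := hf0 x
        constructor <;> linarith
      calc |f x - 1| * |lg μ x| ≤ |f x - 1| * (|g x| + |lg μ x - g x|) := by gcongr
        _ = |f x - 1| * |g x| + |f x - 1| * |lg μ x - g x| := by ring
        _ ≤ |f x - 1| * K + (c + 1) * |lg μ x - g x| := by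
            gcongr
            exact hgK x
        _ = K * |f x - 1| + (c + 1) * |lg μ x - g x| := by ring
    have h18 : Integrable (fun x => K * |f x - 1| + ((c : ℝ) + 1) * |lg μ x - g x|) μ :=
      ((hfi.sub (integrable_const 1)).abs.const_mul K).add ((hli.sub hgi).abs.const_mul _)
    calc |∫ x, (f x - 1) * lg μ x ∂μ| ≤ ∫ x, |(f x - 1) * lg μ x| ∂μ := abs_integral_le_integral_abs
      _ ≤ ∫ x, (K * |f x - 1| + ((c : ℝ) + 1) * |lg μ x - g x|) ∂μ :=
          integral_mono hdi.abs h18 h15
      _ = K * ∫ x, |f x - 1| ∂μ + ((c : ℝ) + 1) * ∫ x, |lg μ x - g x| ∂μ := by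
          rw [integral_add (f := fun x => K * |f x - 1|)
            (g := fun x => ((c : ℝ) + 1) * |lg μ x - g x|)
            ((hfi.sub (integrable_const 1)).abs.const_mul K)
            ((hli.sub hgi).abs.const_mul _), integral_const_mul, integral_const_mul]
      _ ≤ K * (2 * (c - 1)) + (c + 1) * ε := by
          gcongr
  have hdiff : ent ν - ent μ = -(∫ x, (f x - 1) * lg μ x ∂μ) - ∫ x, f x * Real.log (f x) ∂μ := by
    have h19 : ∫ x, (f x - 1) * lg μ x ∂μ = ∫ x, f x * lg μ x ∂μ - ∫ x, lg μ x ∂μ := by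
      rw [← integral_sub hil hli]
      congr 1
      funext x
      ring
    rw [hent, h19, hle2]
    ring
  rw [hdiff]
  have h20 := abs_le.1 hmain
  rw [abs_le]
  constructor <;> linarith

/-- Let `f n` be the density of `ν n` with respect to `μ`; `0 ≤ f n ≤ c n`, `∫ f n dμ = 1`, so
`∫ |f n - 1| dμ ≤ 2 (c n - 1)` (use `(c n - f n) ≥ 0`). By `ent_tl` (with `f n` changed on a null set to
be `≤ c n` everywhere), `ent (ν n) = - ∫ f n * lg μ - ∫ f n log (f n)`; `0 ≤ ∫ f n log (f n) ≤ log (c n)`, and
`∫ (f n - 1) lg μ → 0` (split at `|lg μ| ≤ K`). -/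
theorem lim_ent (μ : Measure (Eu d)) [IsProbabilityMeasure μ] (h : FinE μ)
    (ν : ℕ → Measure (Eu d)) (hν : ∀ n, IsProbabilityMeasure (ν n)) (c : ℕ → NNReal)
    (hc : Tendsto (fun n => (c n : ℝ)) atTop (𝓝 1)) (hle : ∀ n, ν n ≤ (c n : ℝ≥0∞) • μ) :
    Tendsto (fun n => ent (ν n)) atTop (𝓝 (ent μ)) := by
  rw [Metric.tendsto_atTop]
  intro δ hδ
  obtain ⟨K, hK, hKε⟩ := lm_clip μ (lg μ) (log_dens μ h).1 (δ / 8) (by positivity)
  have hlim : Tendsto (fun n => 2 * K * ((c n : ℝ) - 1) + ((c n : ℝ) + 1) * (δ / 8) +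
      Real.log (c n)) atTop (𝓝 (2 * K * (1 - 1) + (1 + 1) * (δ / 8) + Real.log 1)) := by
    refine ((tendsto_const_nhds.mul (hc.sub tendsto_const_nhds)).add
      ((hc.add tendsto_const_nhds).mul tendsto_const_nhds)).add ?_
    exact ((Real.continuousAt_log one_ne_zero).tendsto).comp hc
  have h1 : 2 * K * (1 - 1) + (1 + 1) * (δ / 8) + Real.log 1 < δ := by
    rw [Real.log_one]; linarith
  obtain ⟨N, hN⟩ := eventually_atTop.1 (hlim.eventually (gt_mem_nhds h1))
  refine ⟨N, fun n hn => ?_⟩
  have := hν n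
  rw [Real.dist_eq]
  exact (lm_one μ h (ν n) (c n) (hle n) K (δ / 8) hK hKε).2.trans_lt (hN n hn)

end Pool.Agent.LQ
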