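import Pool.Agent.Lib_helper52.LQ.Defs
import Pool.Agent.Lib_helper87.YG.T3

set_option autoImplicit false

namespace Pool.Agent.LQ

open MeasureTheory ENNReal Set Filter Topology Pool.Agent.EPS Pool.Agent.YG

variable {d : ℕ}

/-- truncation: `ν n` = `μ` conditioned on `{‖x‖ ≤ n, dn μ x ≤ n}` for large `n` (and `ν n` = any such
conditioned law for small `n`) -/
theorem trunc_nc (μ : Measure (Eu d)) [IsProbabilityMeasure μ] (h : μ ≪ volume) :
    ∃ (ν : ℕ → Measure (Eu d)) (c : ℕ → NNReal), (∀ n, Nc (ν n)) ∧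
      Tendsto (fun n => (c n : ℝ)) atTop (𝓝 1) ∧ ∀ n, ν n ≤ (c n : ℝ≥0∞) • μ := by
  obtain ⟨hm, hone, hwd⟩ := dn_basic μ h
  set S : ℕ → Set (Eu d) := fun n => {x | ‖x‖ ≤ (n : ℝ) ∧ dn μ x ≤ (n : ℝ≥0∞)} with hS
  have hSm : ∀ n, MeasurableSet (S n) := by
    intro n
    exact (measurableSet_le measurable_norm measurable_const).inter
      (measurableSet_le hm measurable_const)
  have hmono : Monotone S := by
    intro a b hab x hx
    refine ⟨hx.1.trans (by exact_mod_cast hab), hx.2.trans (by exact_mod_cast hab)⟩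
  have hU : ∀ᵐ x ∂μ, x ∈ ⋃ n, S n := by
    have h2 : ∀ᵐ x ∂μ, dn μ x < ⊤ := h.ae_le (Measure.rnDeriv_lt_top μ volume)
    filter_upwards [h2] with x hx
    obtain ⟨n1, hn1⟩ := exists_nat_ge ‖x‖
    obtain ⟨n2, hn2⟩ := ENNReal.exists_nat_gt hx.ne
    refine mem_iUnion.2 ⟨max n1 n2, ?_, ?_⟩
    · exact hn1.trans (by exact_mod_cast le_max_left n1 n2)
    · exact hn2.le.trans (by exact_mod_cast le_max_right n1 n2)
  have hlim : Tendsto (fun n => μ (S n)) atTop (𝓝 1) := by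
    have h1 := tendsto_measure_iUnion_atTop (μ := μ) hmono
    have h3 : μ (⋃ n, S n) = 1 := by
      rw [prob_compl_eq_zero_iff (MeasurableSet.iUnion hSm) |>.1 ]
      exact hU
    rwa [h3] at h1
  obtain ⟨n0, hn0⟩ : ∃ n0, 0 < μ (S n0) := by
    have := (hlim.eventually (lt_mem_nhds (show (0 : ℝ≥0∞) < 1 by norm_num))).exists
    exact this
  set m : ℕ → ℕ := fun n => max n n0 with hmdef
  have hpos : ∀ n, 0 < μ (S (m n)) := fun n =>
    hn0.trans_le (measure_mono (hmono (le_max_right n n0)))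
  have hne : ∀ n, μ (S (m n)) ≠ ⊤ := fun n => measure_ne_top _ _
  refine ⟨fun n => (μ (S (m n)))⁻¹ • μ.restrict (S (m n)), fun n => ((μ (S (m n)))⁻¹).toNNReal,
    ?_, ?_, ?_⟩
  · intro n
    have hc : (μ (S (m n)))⁻¹ ≠ ⊤ := ENNReal.inv_ne_top.2 (hpos n).ne'
    refine ⟨⟨?_⟩, ⟨(m n : ℝ), ?_⟩, ⟨((μ (S (m n)))⁻¹).toNNReal * (m n : NNReal), ?_⟩⟩
    · rw [Measure.smul_apply, Measure.restrict_apply MeasurableSet.univ, univ_inter, smul_eq_mul,
        ENNReal.inv_mul_cancel (hpos n).ne' (hne n)]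
    · refine Measure.ae_smul_measure ?_ _
      filter_upwards [ae_restrict_mem (hSm (m n))] with x hx
      exact hx.1
    · have h1 : μ.restrict (S (m n)) ≤ (m n : ℝ≥0∞) • volume := by
        refine Measure.le_iff.2 fun s hs => ?_
        rw [Measure.restrict_apply hs, Measure.smul_apply, smul_eq_mul]
        have h2 : μ (s ∩ S (m n)) = ∫⁻ x in s ∩ S (m n), dn μ x := by
          rw [← withDensity_apply _ (hs.inter (hSm _)), hwd]
        rw [h2]
        calc ∫⁻ x in s ∩ S (m n), dn μ x ≤ ∫⁻ x in s ∩ S (m n), (m n : ℝ≥0∞) := by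
              refine setLIntegral_mono measurable_const fun x hx => hx.2.2
          _ = (m n : ℝ≥0∞) * volume (s ∩ S (m n)) := by
              rw [setLIntegral_const]
          _ ≤ (m n : ℝ≥0∞) * volume s := by gcongr; exact inter_subset_left
      refine Measure.le_iff.2 fun s hs => ?_
      have h3 := h1 s
      rw [Measure.smul_apply, Measure.smul_apply, smul_eq_mul, smul_eq_mul, ENNReal.coe_mul,
        ENNReal.coe_toNNReal hc]
      rw [Measure.smul_apply, smul_eq_mul] at h3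
      rw [mul_assoc]
      have h4 : ((m n : NNReal) : ℝ≥0∞) = (m n : ℝ≥0∞) := by norm_cast
      rw [h4]
      gcongr
  · have h1 : Tendsto (fun n => μ (S (m n))) atTop (𝓝 1) := by
      have h2 : Tendsto m atTop atTop := tendsto_atTop_mono (fun n => le_max_left n n0) tendsto_id
      exact hlim.comp h2
    have h3 : Tendsto (fun n => (μ (S (m n)))⁻¹) atTop (𝓝 1) := by
      have := ((continuous_inv (G := ℝ≥0∞)).tendsto (1 : ℝ≥0∞)).comp h1
      rwa [inv_one] at this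
    have h5 := (ENNReal.tendsto_toReal (a := (1 : ℝ≥0∞)) one_ne_top).comp h3
    simpa [Function.comp_def, ENNReal.toReal] using h5
  · intro n
    have hc : (μ (S (m n)))⁻¹ ≠ ⊤ := ENNReal.inv_ne_top.2 (hpos n).ne'
    refine Measure.le_iff.2 fun s hs => ?_
    rw [Measure.smul_apply, Measure.smul_apply, smul_eq_mul, smul_eq_mul, ENNReal.coe_toNNReal hc]
    gcongr
    exact Measure.restrict_le_self

theorem conv_le (μ μ' ν ν' : Measure (Eu d)) [IsProbabilityMeasure μ] [IsProbabilityMeasure μ']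
    [IsProbabilityMeasure ν] [IsProbabilityMeasure ν'] (a b : NNReal)
    (h : μ' ≤ (a : ℝ≥0∞) • μ) (h' : ν' ≤ (b : ℝ≥0∞) • ν) :
    μ'.conv ν' ≤ ((a * b : NNReal) : ℝ≥0∞) • (μ.conv ν) := by
  refine Measure.le_iff.2 fun s hs => ?_
  rw [Measure.smul_apply, smul_eq_mul, ENNReal.coe_mul]
  have hadd : Measurable (fun p : Eu d × Eu d => p.1 + p.2) := measurable_fst.add measurable_snd
  rw [Measure.conv, Measure.conv, Measure.map_apply hadd hs, Measure.map_apply hadd hs]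
  set A := (fun p : Eu d × Eu d => p.1 + p.2) ⁻¹' s with hA
  have hAm : MeasurableSet A := hadd hs
  rw [Measure.prod_apply hAm, Measure.prod_apply hAm]
  calc ∫⁻ x, ν' (Prod.mk x ⁻¹' A) ∂μ' ≤ ∫⁻ x, (b : ℝ≥0∞) * ν (Prod.mk x ⁻¹' A) ∂μ' := by
        refine lintegral_mono fun x => ?_
        have := h' (Prod.mk x ⁻¹' A)
        rwa [Measure.smul_apply, smul_eq_mul] at this
    _ ≤ ∫⁻ x, (b : ℝ≥0∞) * ν (Prod.mk x ⁻¹' A) ∂((a : ℝ≥0∞) • μ) := lintegral_mono' h le_rfl
    _ = (a : ℝ≥0∞) * ((b : ℝ≥0∞) * ∫⁻ x, ν (Prod.mk x ⁻¹' A) ∂μ) := by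
        rw [lintegral_smul_measure, smul_eq_mul,
          lintegral_const_mul _ (measurable_measure_prodMk_left hAm)]
    _ = (a : ℝ≥0∞) * (b : ℝ≥0∞) * ∫⁻ x, ν (Prod.mk x ⁻¹' A) ∂μ := by ring

end Pool.Agent.LQ
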